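import Mathlib.Data.Finset.Card
import Mathlib.Data.Fintype.Card
import Mathlib.Order.Disjoint

namespace Pool.Agent.Helper45.Rainbow

/-- `e` is an edge of an `r`-partite `r`-graph with vertex set `V` split into the parts
`V_i = {v | part v = i}`: it meets every part in exactly one vertex (so it has `r` vertices). -/
def IsEdge {V : Type} {r : ℕ} (part : V → Fin r) (e : Finset V) : Prop :=
  ∀ i : Fin r, ∃! v, v ∈ e ∧ part v = i

/-- `M` is a `t`-matching: a set of `t` pairwise disjoint edges. -/
def IsMatching {V : Type} {r : ℕ} (part : V → Fin r) (t : ℕ) (M : Finset (Finset V)) : Prop :=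
  M.card = t ∧ (∀ e ∈ M, IsEdge part e) ∧ ∀ e ∈ M, ∀ e' ∈ M, e ≠ e' → Disjoint e e'

/-- There is a rainbow `t`-matching: `t` pairwise disjoint edges `e 0, ..., e (t-1)`, the edge
`e j` being taken from the colour class `c j`, with pairwise distinct colours `c j`. -/
def HasRainbow {V : Type} {f : ℕ} (t : ℕ) (M : Fin f → Finset (Finset V)) : Prop :=
  ∃ (c : Fin t → Fin f) (e : Fin t → Finset V),
    Function.Injective c ∧ (∀ j, e j ∈ M (c j)) ∧ ∀ j j', j ≠ j' → Disjoint (e j) (e j')

/-- Some `(f,t)`-coloured `r`-partite `r`-graph, `f ≥ 1`, has no rainbow `t`-matching. The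
number `f(r,t)` is the largest `f` with this property. -/
def Admissible (r t f : ℕ) : Prop :=
  1 ≤ f ∧ ∃ (V : Type) (_ : Finite V) (part : V → Fin r) (M : Fin f → Finset (Finset V)),
    (∀ c, IsMatching part t (M c)) ∧ ¬ HasRainbow t M

end Pool.Agent.Helper45.Rainbow
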