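import Mathlib
import Pool.Agent.Helper45.Rainbow.Defs

namespace Pool.Agent.Helper45.Rainbow

open Finset

variable {m n : ℕ}

/-- the graph of a map, as a set of vertices of `Fin (m+1) × Fin (n+1)` -/
def gr (g : Fin (m + 1) → Fin (n + 1)) : Finset (Fin (m + 1) × Fin (n + 1)) :=
  univ.image fun i => (i, g i)

lemma mem_gr {g : Fin (m + 1) → Fin (n + 1)} {p : Fin (m + 1) × Fin (n + 1)} :
    p ∈ gr g ↔ g p.1 = p.2 := by
  unfold gr
  simp only [mem_image, mem_univ, true_and]
  constructor
  · rintro ⟨i, rfl⟩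
    rfl
  · intro h
    exact ⟨p.1, by rw [h]⟩

lemma gr_injective : Function.Injective (gr : (Fin (m + 1) → Fin (n + 1)) → _) := by
  intro g g' h
  funext i
  have : (i, g i) ∈ gr g' := by
    rw [← h, mem_gr]
  rw [mem_gr] at this
  exact this.symm

lemma disjoint_gr {g g' : Fin (m + 1) → Fin (n + 1)} :
    Disjoint (gr g) (gr g') ↔ ∀ i, g i ≠ g' i := by
  rw [Finset.disjoint_left]
  constructor
  · intro h i hi
    exact h (a := (i, g i)) (mem_gr.2 rfl) (mem_gr.2 hi.symm)
  · intro h p hp hp'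
    rw [mem_gr] at hp hp'
    exact h p.1 (hp.trans hp'.symm)

lemma isEdge_gr (g : Fin (m + 1) → Fin (n + 1)) :
    IsEdge (Prod.fst : Fin (m + 1) × Fin (n + 1) → Fin (m + 1)) (gr g) := by
  intro i
  refine ⟨(i, g i), ⟨mem_gr.2 rfl, rfl⟩, ?_⟩
  rintro ⟨a, b⟩ ⟨h1, h2⟩
  rw [mem_gr] at h1
  simp only at h1 h2
  subst h2
  rw [h1]

/-- the labels: `m`-subsets of `Fin n` -/
abbrev Lab (m n : ℕ) : Type := {S : Finset (Fin n) // S.card = m}

/-- the `m`-subset `S` enumerated, with a leading `0` -/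
noncomputable def bS (S : Lab m n) : Fin (m + 1) → Fin (n + 1) :=
  Fin.cons 0 fun i => (S.1.orderEmbOfFin S.2 i).succ

lemma bS_zero (S : Lab m n) : bS S 0 = 0 := rfl

lemma bS_succ (S : Lab m n) (i : Fin m) : bS S i.succ = (S.1.orderEmbOfFin S.2 i).succ := by
  simp [bS]

lemma bS_injective (S : Lab m n) : Function.Injective (bS S) := by
  intro i j h
  induction i using Fin.cases with
  | zero =>
    induction j using Fin.cases with
    | zero => rfl
    | succ j =>
      rw [bS_zero, bS_succ] at h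
      exact absurd h.symm (Fin.succ_ne_zero _)
  | succ i =>
    induction j using Fin.cases with
    | zero =>
      rw [bS_zero, bS_succ] at h
      exact absurd h (Fin.succ_ne_zero _)
    | succ j =>
      rw [bS_succ, bS_succ, Fin.succ_inj] at h
      rw [(S.1.orderEmbOfFin S.2).injective h]

lemma bS_succ_mem (S : Lab m n) (i : Fin (m + 1)) (k : Fin n) (h : bS S i = k.succ) :
    k ∈ S.1 := by
  induction i using Fin.cases with
  | zero =>
    rw [bS_zero] at h
    exact absurd h.symm (Fin.succ_ne_zero _)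
  | succ i =>
    rw [bS_succ, Fin.succ_inj] at h
    rw [← h]
    exact Finset.orderEmbOfFin_mem _ _ _

lemma exists_bS (S : Lab m n) {k : Fin n} (hk : k ∈ S.1) : ∃ i, bS S i = k.succ := by
  have : k ∈ Set.range (S.1.orderEmbOfFin S.2) := by
    rw [Finset.range_orderEmbOfFin]
    exact hk
  obtain ⟨i, hi⟩ := this
  exact ⟨i.succ, by rw [bS_succ, hi]⟩

/-- the cyclic shifts of `(0, s_1, ..., s_m)` -/
noncomputable def cyc (S : Lab m n) (s : Fin (m + 1)) : Fin (m + 1) → Fin (n + 1) :=
  fun i => bS S (s + i)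

/-- the diagonal edges -/
def dia (m : ℕ) {n : ℕ} (k : Fin n) : Fin (m + 1) → Fin (n + 1) := fun _ => k.succ

/-- the colour class with label `S` -/
noncomputable def cls (S : Lab m n) : Finset (Finset (Fin (m + 1) × Fin (n + 1))) :=
  (univ.image fun s => gr (cyc S s)) ∪ (univ \ S.1).image fun k => gr (dia m k)

lemma mem_cls {S : Lab m n} {e : Finset (Fin (m + 1) × Fin (n + 1))} :
    e ∈ cls S ↔ (∃ s, e = gr (cyc S s)) ∨ ∃ k, k ∉ S.1 ∧ e = gr (dia m k) := by
  unfold cls
  simp only [mem_union, mem_image, mem_univ, true_and, mem_sdiff]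
  constructor
  · rintro (⟨s, rfl⟩ | ⟨k, hk, rfl⟩)
    · exact Or.inl ⟨s, rfl⟩
    · exact Or.inr ⟨k, hk, rfl⟩
  · rintro (⟨s, rfl⟩ | ⟨k, hk, rfl⟩)
    · exact Or.inl ⟨s, rfl⟩
    · exact Or.inr ⟨k, hk, rfl⟩

lemma cyc_ne_cyc (S : Lab m n) {s s' : Fin (m + 1)} (h : s ≠ s') (i : Fin (m + 1)) :
    cyc S s i ≠ cyc S s' i := by
  intro he
  exact h (add_right_cancel (bS_injective S he))

lemma cyc_ne_dia (S : Lab m n) (s : Fin (m + 1)) {k : Fin n} (hk : k ∉ S.1) (i : Fin (m + 1)) :
    cyc S s i ≠ dia m k i := fun he => hk (bS_succ_mem S _ k he)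

lemma dia_ne_dia {k k' : Fin n} (h : k ≠ k') (i : Fin (m + 1)) : dia m k i ≠ dia m k' i :=
  fun he => h (Fin.succ_injective _ he)

lemma isMatching_cls (S : Lab m n) :
    IsMatching (Prod.fst : Fin (m + 1) × Fin (n + 1) → Fin (m + 1)) (n + 1) (cls S) := by
  refine ⟨?_, ?_, ?_⟩
  · unfold cls
    rw [card_union_of_disjoint, card_image_of_injective, card_image_of_injective, card_sdiff,
      card_univ, card_univ, Fintype.card_fin, Fintype.card_fin, inter_univ, S.2]
    · have : m ≤ n := by
        have := card_le_univ S.1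
        rwa [S.2, Fintype.card_fin] at this
      omega
    · intro k k' h
      by_contra hne
      exact dia_ne_dia hne 0 (congrFun (gr_injective h) 0)
    · intro s s' h
      by_contra hne
      exact cyc_ne_cyc S hne 0 (congrFun (gr_injective h) 0)
    · rw [Finset.disjoint_left]
      intro e he he'
      simp only [mem_image, mem_univ, true_and, mem_sdiff] at he he'
      obtain ⟨s, rfl⟩ := he
      obtain ⟨k, hk, h⟩ := he'
      exact cyc_ne_dia S s hk 0 (congrFun (gr_injective h) 0).symm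
  · intro e he
    rcases mem_cls.1 he with ⟨s, rfl⟩ | ⟨k, hk, rfl⟩ <;> exact isEdge_gr _
  · intro e he e' he' hne
    rcases mem_cls.1 he with ⟨s, rfl⟩ | ⟨k, hk, rfl⟩ <;>
      rcases mem_cls.1 he' with ⟨s', rfl⟩ | ⟨k', hk', rfl⟩ <;> rw [disjoint_gr]
    · have : s ≠ s' := fun h => hne (by rw [h])
      exact cyc_ne_cyc S this
    · exact cyc_ne_dia S s hk'
    · exact fun i h => cyc_ne_dia S s' hk i h.symm
    · have : k ≠ k' := fun h => hne (by rw [h])
      exact dia_ne_dia this

/-- the key point: in `n + 1` pairwise disjoint edges from the classes `cls (L j)`, more than `m`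
indices `j` share the same label. -/
lemma key (hn : 0 < n) (L : Fin (n + 1) → Lab m n) (e : Fin (n + 1) → Finset (Fin (m + 1) × Fin (n + 1)))
    (he : ∀ j, e j ∈ cls (L j)) (hd : ∀ j j', j ≠ j' → Disjoint (e j) (e j')) :
    ∃ S : Lab m n, ∃ φ : Fin (m + 1) → Fin (n + 1), Function.Injective φ ∧ ∀ i, L (φ i) = S := by
  classical
  -- write the edges as graphs of maps
  have hex : ∀ j, ∃ g : Fin (m + 1) → Fin (n + 1), e j = gr g ∧
      ((∃ s, g = cyc (L j) s) ∨ ∃ k, k ∉ (L j).1 ∧ g = dia m k) := by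
    intro j
    rcases mem_cls.1 (he j) with ⟨s, h⟩ | ⟨k, hk, h⟩
    · exact ⟨_, h, Or.inl ⟨s, rfl⟩⟩
    · exact ⟨_, h, Or.inr ⟨k, hk, rfl⟩⟩
  choose g hg hcase using hex
  have hinj : ∀ i, Function.Injective fun j => g j i := by
    intro i j j' h
    by_contra hne
    have := hd j j' hne
    rw [hg, hg, disjoint_gr] at this
    exact this i h
  have hsurj : ∀ i, Function.Surjective fun j => g j i := fun i =>
    Finite.surjective_of_injective (hinj i)
  -- the edge through the `0` of part `i`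
  choose φ hφ using fun i => hsurj i 0
  simp only at hφ
  have hφcyc : ∀ i, ∃ s, g (φ i) = cyc (L (φ i)) s := by
    intro i
    rcases hcase (φ i) with h | ⟨k, hk, h⟩
    · exact h
    · have := hφ i
      rw [h] at this
      exact absurd this (Fin.succ_ne_zero _)
  have hφinj : Function.Injective φ := by
    intro i i' h
    obtain ⟨s, hs⟩ := hφcyc i
    have h1 := hφ i
    have h2 := hφ i'
    rw [← h] at h2
    rw [hs] at h1 h2
    have h3 : bS (L (φ i)) (s + i) = bS (L (φ i)) (s + i') := h1.trans h2.symm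
    exact add_left_cancel (bS_injective _ h3)
  -- every non-diagonal edge is one of them
  have hnd : ∀ j, (∃ s, g j = cyc (L j) s) → ∃ i, φ i = j := by
    rintro j ⟨s, hs⟩
    refine ⟨-s, ?_⟩
    apply hinj (-s)
    simp only
    rw [hφ, hs]
    unfold cyc
    rw [add_neg_cancel, bS_zero]
  -- the set of indices of diagonal edges
  set J : Finset (Fin (n + 1)) := univ \ univ.image φ with hJ
  have hJcard : J.card = n - m := by
    rw [hJ, card_sdiff, inter_univ, card_image_of_injective _ hφinj, card_univ, card_univ,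
      Fintype.card_fin, Fintype.card_fin]
    omega
  have hJd : ∀ j ∈ J, ∃ k, g j = dia m k := by
    intro j hj
    rcases hcase j with h | ⟨k, hk, h⟩
    · obtain ⟨i, hi⟩ := hnd j h
      rw [hJ, mem_sdiff] at hj
      exact absurd (mem_image.2 ⟨i, mem_univ _, hi⟩) hj.2
    · exact ⟨k, h⟩
  have : Nonempty (Fin n) := ⟨⟨0, hn⟩⟩
  choose! κ hκ using hJd
  have hκinj : Set.InjOn κ J := by
    intro j hj j' hj' h
    apply hinj 0
    simp only
    rw [hκ j hj, hκ j' hj', h]
  set D : Finset (Fin n) := J.image κ with hD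
  have hDcard : D.card = n - m := by
    rw [hD, card_image_of_injOn hκinj, hJcard]
  have hmn : m ≤ n := by
    have := card_le_univ (L 0).1
    rwa [(L 0).2, Fintype.card_fin] at this
  have hDc : (univ \ D).card = m := by
    rw [card_sdiff, inter_univ, card_univ, Fintype.card_fin, hDcard]
    omega
  refine ⟨⟨univ \ D, hDc⟩, φ, hφinj, fun i => ?_⟩
  apply Subtype.ext
  apply Finset.eq_of_subset_of_card_le
  · intro k hk
    rw [mem_sdiff]
    refine ⟨mem_univ _, fun hkD => ?_⟩
    rw [hD, mem_image] at hkD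
    obtain ⟨j, hj, rfl⟩ := hkD
    obtain ⟨s, hs⟩ := hφcyc i
    obtain ⟨i', hi'⟩ := exists_bS (L (φ i)) hk
    have h1 : g (φ i) (i' - s) = (κ j).succ := by
      rw [hs]
      unfold cyc
      rw [add_sub_cancel, hi']
    have h2 : g j (i' - s) = (κ j).succ := by
      rw [hκ j hj]
      rfl
    have h3 : φ i = j := hinj (i' - s) (h1.trans h2.symm)
    rw [hJ, mem_sdiff] at hj
    exact hj.2 (mem_image.2 ⟨i, mem_univ _, h3⟩)
  · rw [hDc, (L (φ i)).2]

lemma card_lab : Fintype.card (Lab m n) = n.choose m := by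
  rw [Fintype.card_finset_len, Fintype.card_fin]

/-- `f(m+1, n+1) ≥ m * C(n,m)` -/
theorem admissible_constr (hm : 1 ≤ m) (hmn : m ≤ n) :
    Admissible (m + 1) (n + 1) (m * n.choose m) := by
  classical
  refine ⟨Nat.mul_pos hm (Nat.choose_pos hmn), Fin (m + 1) × Fin (n + 1), inferInstance,
    Prod.fst, ?_⟩
  have hcard : Fintype.card (Fin m × Lab m n) = m * n.choose m := by
    rw [Fintype.card_prod, Fintype.card_fin, card_lab]
  set E : Fin (m * n.choose m) ≃ Fin m × Lab m n :=
    (finCongr hcard.symm).trans (Fintype.equivFin _).symm with hE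
  refine ⟨fun c => cls (E c).2, fun c => isMatching_cls _, ?_⟩
  rintro ⟨c, e, hc, he, hd⟩
  obtain ⟨S, φ, hφ, hS⟩ := key (by omega) (fun j => (E (c j)).2) e he hd
  have hψ : Function.Injective fun i : Fin (m + 1) => (E (c (φ i))).1 := by
    intro i i' h
    apply hφ
    apply hc
    apply E.injective
    apply Prod.ext h
    exact (hS i).trans (hS i').symm
  have := Fintype.card_le_of_injective _ hψ
  rw [Fintype.card_fin, Fintype.card_fin] at this
  omega

end Pool.Agent.Helper45.Rainbow
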